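import Mathlib

/-!
# MP_18f3b4_gt: the Rasmussen invariant of a link over different fields

The Rasmussen invariant `s(D; F)` of an oriented link diagram `D` over a field `F` is defined here from
Bar-Natan's filtered deformation of the Khovanov complex (Frobenius algebra `F[X]/(X² - X)`). For a diagram with `n`
crossings and `m` arcs it is the same for all fields of characteristic `0` or larger than `(2 ^ (n + m) + 1)!`. Hence,
if `D` separates the characteristics `p` and `0`, it also separates `p` and `q` for all primes `q` above this bound.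
-/

open Finset Nat

namespace Pool.Agent.Results.MP_18f3b4_gt.LargeCharacteristic

/-! ### Oriented planar diagrams -/

/-- The slots of a crossing are numbered counterclockwise, `0` is the incoming end of the lower strand (so `2` is its
outgoing end); the upper strand goes from slot `3` to slot `1` at a positive crossing and from `1` to `3` at a
negative one. `Incoming s k`: at a crossing of sign `s` the arc in slot `k` ends there. -/
def Incoming (s : Bool) (k : Fin 4) : Prop := k = 0 ∨ k = if s then 3 else 1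

/-- `Joined arc v x y`: a smoothing `v i` of a crossing `i` joins the arcs `x` and `y`. The `0`-smoothing (`false`)
joins the slots `0, 1` and `2, 3`, the `1`-smoothing (`true`) joins the slots `0, 3` and `1, 2`. -/
def Joined {m n : ℕ} (arc : Fin n → Fin 4 → Fin m) (v : Fin n → Bool) (x y : Fin m) : Prop :=
  ∃ i, (x = arc i 0 ∧ y = arc i (if v i then 3 else 1)) ∨ (x = arc i 2 ∧ y = arc i (if v i then 1 else 3))

/-- Two corners (the corner `(i, k)` of the crossing `i` lies between the slots `k` and `k + 1`) which belong to the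
same face of the diagram, on the two ends of one side of an arc. -/
def SameFace {m n : ℕ} (arc : Fin n → Fin 4 → Fin m) (c c' : Fin n × Fin 4) : Prop :=
  c' ≠ (c.1, c.2 + 1) ∧ arc c'.1 c'.2 = arc c.1 (c.2 + 1)

/-- Two crossings on a common arc. -/
def Adjacent {m n : ℕ} (arc : Fin n → Fin 4 → Fin m) (i j : Fin n) : Prop := ∃ k l, arc i k = arc j l

/-- Oriented link diagrams: `m` arcs, `n` crossings, `arc i k` is the arc in the slot `k` of the crossing `i`, and
`pos i` says that the crossing `i` is positive. -/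
structure Diagram where
  /-- number of arcs -/
  m : ℕ
  /-- number of crossings -/
  n : ℕ
  /-- the arcs at a crossing -/
  arc : Fin n → Fin 4 → Fin m
  /-- the sign of a crossing -/
  pos : Fin n → Bool
  /-- every arc is a free circle, or it starts at exactly one slot and ends at exactly one slot -/
  ends : ∀ x : Fin m, (∀ i k, arc i k ≠ x) ∨
    ((∃! c : Fin n × Fin 4, Incoming (pos c.1) c.2 ∧ arc c.1 c.2 = x) ∧
      ∃! c : Fin n × Fin 4, ¬ Incoming (pos c.1) c.2 ∧ arc c.1 c.2 = x)
  /-- Euler's formula: the diagram is planar -/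
  planar : Nat.card (Quot (SameFace arc)) = n + 2 * Nat.card (Quot (Adjacent arc))
  /-- a labelling of the circles of the oriented smoothing (constant on circles) -/
  lab : Fin m → Bool
  /-- it is constant on the circles -/
  lab_circle : ∀ x y, Joined arc (fun i => !pos i) x y → lab x = lab y
  /-- the two circles which touch at a crossing have different labels -/
  lab_crossing : ∀ i, lab (arc i 0) ≠ lab (arc i 2)

namespace Diagram

variable (D : Diagram)

/-- the circles of the smoothing `v` -/
def Circle (v : Fin D.n → Bool) : Type := Quot (Joined D.arc v)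

/-- the circle of the smoothing `v` which contains the arc `x` -/
def circ (v : Fin D.n → Bool) (x : Fin D.m) : D.Circle v := Quot.mk _ x

/-- Basis of the complex: a vertex `v` of the cube and a basis element (`false` for `1`, `true` for `X`) of the
Frobenius algebra for each circle of the smoothing `v`. -/
def Gen : Type := Σ v : Fin D.n → Bool, (D.Circle v → Bool)

instance (v : Fin D.n → Bool) : Finite (D.Circle v) :=
  Finite.of_surjective (D.circ v) Quot.mk_surjective

instance : Finite D.Gen := inferInstanceAs (Finite (Σ v : Fin D.n → Bool, (D.Circle v → Bool)))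

noncomputable instance : Fintype D.Gen := Fintype.ofFinite _

/-- the quantum degree: `1` has degree `1`, `X` has degree `-1`, shifted by the number of `1`-smoothings and by
`n₊ - 2 n₋` -/
noncomputable def qdeg (g : D.Gen) : ℤ :=
  (∑ᶠ c : D.Circle g.1, if g.2 c then (-1 : ℤ) else 1) + (univ.filter fun i => g.1 i = true).card +
    (univ.filter fun i => D.pos i = true).card - 2 * (univ.filter fun i => D.pos i = false).card

/-- multiplication: coefficient of `c` in `a b`, where `1 1 = 1`, `1 X = X 1 = X`, `X X = X` -/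
def merge (a b c : Bool) : ℤ := if (a || b) = c then 1 else 0

/-- comultiplication: coefficient of `b ⊗ c` in `Δ a`, where `Δ 1 = 1 ⊗ X + X ⊗ 1 - 1 ⊗ 1`, `Δ X = X ⊗ X` -/
def split (a b c : Bool) : ℤ :=
  if a then (if b && c then 1 else 0) else (if b && c then 0 else if b || c then 1 else -1)

open Classical in
/-- the differential of the cube complex: coefficient of the basis element `g` in `d h` -/
noncomputable def dcoef (h g : D.Gen) : ℤ :=
  ∑ i : Fin D.n,
    if h.1 i = false ∧ g.1 = Function.update h.1 i true ∧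
        (∀ x, D.circ h.1 x ≠ D.circ h.1 (D.arc i 0) → D.circ h.1 x ≠ D.circ h.1 (D.arc i 2) →
          g.2 (D.circ g.1 x) = h.2 (D.circ h.1 x)) then
      (-1) ^ (univ.filter fun j => j < i ∧ h.1 j = true).card *
        (if D.circ h.1 (D.arc i 0) = D.circ h.1 (D.arc i 2) then
          split (h.2 (D.circ h.1 (D.arc i 0))) (g.2 (D.circ g.1 (D.arc i 0))) (g.2 (D.circ g.1 (D.arc i 2)))
        else
          merge (h.2 (D.circ h.1 (D.arc i 0))) (h.2 (D.circ h.1 (D.arc i 2))) (g.2 (D.circ g.1 (D.arc i 0))))
    else 0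

open Classical in
/-- the canonical cycle: on the oriented smoothing the tensor product of `X` over the circles with label `true` and
of `1 - X` over the circles with label `false`; here its coefficient at `g` -/
noncomputable def can (g : D.Gen) : ℤ :=
  if g.1 = fun i => !D.pos i then
    ∏ᶠ c : D.Circle g.1,
      if ∃ x, D.circ g.1 x = c ∧ D.lab x = true then (if g.2 c then (1 : ℤ) else 0)
      else (if g.2 c then (-1 : ℤ) else 1)
  else 0

/-- Over `F` the canonical cycle is homologous to a chain in filtration level `j` (all basis elements of quantum degree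
`< j` have coefficient `0`). -/
def HasLevel (F : Type*) [Field F] (j : ℤ) : Prop :=
  ∃ y : D.Gen → F, ∀ g : D.Gen, D.qdeg g < j → (D.can g : F) + ∑ h, (D.dcoef h g : F) * y h = 0

/-- the Rasmussen invariant `s(D; F)` -/
noncomputable def rasmussen (F : Type*) [Field F] : ℤ := sSup {j : ℤ | D.HasLevel F j} + 1

end Diagram

/-- The diagram `D` separates the characteristics `p` and `q`: there are fields `F`, `K` of these characteristics with
`s(D; F) ≠ s(D; K)`. -/
def Separates (D : Diagram) (p q : ℕ) : Prop :=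
  ∃ (F : Type) (_ : Field F) (K : Type) (_ : Field K),
    ringChar F = p ∧ ringChar K = q ∧ D.rasmussen F ≠ D.rasmussen K

/-! ### Linear algebra -/

/-- solvability of the part `S` of the linear system -/
private def Solv {ι κ : Type} [Fintype κ] (a : κ → ι → ℤ) (c : ι → ℤ) (S : Set ι) (F : Type*) [Field F] : Prop :=
  ∃ y : κ → F, ∀ g ∈ S, (c g : F) + ∑ h, (a h g : F) * y h = 0

/-- the minor of the matrix `a` with rows `ρ` and columns `σ` -/
private def mnr {ι κ : Type} (a : κ → ι → ℤ) {s : Type} [Fintype s] [DecidableEq s] (ρ : s → ι) (σ : s → κ) : ℤ :=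
  (Matrix.of fun i j => a (σ j) (ρ i)).det

private theorem max_minor {ι κ : Type} [Fintype κ] (a : κ → ι → ℤ) (S : Set ι) :
    ∃ (r : ℕ) (ρ : Fin r → ι) (σ : Fin r → κ), r ≤ Fintype.card κ ∧ (∀ i, ρ i ∈ S) ∧ mnr a ρ σ ≠ 0 ∧
      ∀ g ∈ S, ∀ h, mnr a (Sum.elim ρ fun _ : Unit => g) (Sum.elim σ fun _ : Unit => h) = 0 := by
  classical
  let P : ℕ → Prop := fun r => ∃ (ρ : Fin r → ι) (σ : Fin r → κ), (∀ i, ρ i ∈ S) ∧ mnr a ρ σ ≠ 0
  have hP0 : P 0 := ⟨Fin.elim0, Fin.elim0, fun i => i.elim0, by unfold mnr; simp⟩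
  have hPle : ∀ r, P r → r ≤ Fintype.card κ := by
    rintro r ⟨ρ, σ, -, hd⟩
    have hinj : Function.Injective σ := by
      intro i j hij
      by_contra hne
      apply hd
      unfold mnr
      exact Matrix.det_zero_of_column_eq hne fun k => by simp [hij]
    simpa using Fintype.card_le_of_injective σ hinj
  have hspec := Nat.findGreatest_spec (P := P) (Nat.zero_le (Fintype.card κ)) hP0
  have hmax : ∀ s, P s → s ≤ Nat.findGreatest P (Fintype.card κ) := fun s hs => Nat.le_findGreatest (hPle s hs) hs
  have hle := Nat.findGreatest_le (P := P) (Fintype.card κ)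
  generalize Nat.findGreatest P (Fintype.card κ) = r at hspec hmax hle
  obtain ⟨ρ, σ, hρ, hd⟩ := hspec
  refine ⟨r, ρ, σ, hle, hρ, hd, fun g hg h => ?_⟩
  by_contra hne
  have e : Fin (r + 1) ≃ Fin r ⊕ Unit := (Fintype.equivFinOfCardEq (by simp)).symm
  have h1 : P (r + 1) := by
    refine ⟨fun i => Sum.elim ρ (fun _ : Unit => g) (e i), fun i => Sum.elim σ (fun _ : Unit => h) (e i), fun i => ?_, ?_⟩
    · show Sum.elim ρ (fun _ : Unit => g) (e i) ∈ S
      rcases e i with x | x
      · exact hρ x
      · exact hg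
    · intro h0
      apply hne
      unfold mnr at h0 ⊢
      rw [← Matrix.det_submatrix_equiv_self e]
      exact h0
  have h2 := hmax _ h1
  omega

private theorem bord {F : Type*} [Field F] {r : ℕ} (A : Matrix (Fin r) (Fin r) F) (hA : A.det ≠ 0)
    (u w : Fin r → F) (t : F) :
    (Matrix.fromBlocks A (Matrix.of fun i (_ : Unit) => u i) (Matrix.of fun (_ : Unit) j => w j)
      (Matrix.of fun (_ _ : Unit) => t)).det = A.det * (t - ∑ j, w j * (A⁻¹.mulVec u) j) := by
  let _ := Matrix.invertibleOfIsUnitDet A (isUnit_iff_ne_zero.2 hA)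
  rw [Matrix.det_fromBlocks₁₁, Matrix.invOf_eq_nonsing_inv, Matrix.mul_assoc]
  congr 1
  rw [Matrix.det_unique]
  rfl

/-- the bordered matrix -/
private def bm {ι κ : Type} (a : κ → ι → ℤ) {r : ℕ} (ρ : Fin r → ι) (σ : Fin r → κ) (b : ι → ℤ) (g : ι) :
    Matrix (Fin r ⊕ Unit) (Fin r ⊕ Unit) ℤ :=
  Matrix.fromBlocks (Matrix.of fun i j => a (σ j) (ρ i)) (Matrix.of fun i (_ : Unit) => b (ρ i))
    (Matrix.of fun (_ : Unit) j => a (σ j) g) (Matrix.of fun (_ _ : Unit) => b g)

private theorem crit {ι κ : Type} [Fintype κ] (a : κ → ι → ℤ) (c : ι → ℤ) (S : Set ι)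
    (ha : ∀ h g, |a h g| ≤ 1) (hc : ∀ g, |c g| ≤ 1) {r : ℕ} (ρ : Fin r → ι) (σ : Fin r → κ)
    (hr : r ≤ Fintype.card κ) (hρ : ∀ i, ρ i ∈ S) (hd : mnr a ρ σ ≠ 0)
    (hb : ∀ g ∈ S, ∀ h, mnr a (Sum.elim ρ fun _ : Unit => g) (Sum.elim σ fun _ : Unit => h) = 0)
    (F : Type*) [Field F] (hF : ∀ t : ℤ, |t| ≤ ((Fintype.card κ + 1)! : ℕ) → t ≠ 0 → (t : F) ≠ 0) :
    Solv a c S F ↔ ∀ g ∈ S, (bm a ρ σ c g).det = 0 := by
  classical
  set A : Matrix (Fin r) (Fin r) F := Matrix.of fun i j => (a (σ j) (ρ i) : F) with hAdef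
  have hcastA : (mnr a ρ σ : F) = A.det := by
    exact (Int.castRingHom F).map_det (Matrix.of fun i j => a (σ j) (ρ i))
  have hfac : (r ! : ℤ) ≤ ((Fintype.card κ + 1)! : ℕ) := by
    exact_mod_cast Nat.factorial_le (by omega)
  have hfac1 : ((r + 1)! : ℤ) ≤ ((Fintype.card κ + 1)! : ℕ) := by
    exact_mod_cast Nat.factorial_le (by omega)
  have hA : A.det ≠ 0 := by
    rw [← hcastA]
    refine hF _ (le_trans ?_ hfac) hd
    have := Matrix.det_le (A := Matrix.of fun i j => a (σ j) (ρ i)) (abv := AbsoluteValue.abs) (x := 1)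
      (fun i j => ha _ _)
    simpa [mnr] using this
  have hcast : ∀ (b : ι → ℤ) (g : ι), ((bm a ρ σ b g).det : F) =
      A.det * ((b g : F) - ∑ j, (a (σ j) g : F) * (A⁻¹.mulVec fun i => (b (ρ i) : F)) j) := by
    intro b g
    rw [← bord A hA]
    have := (Int.castRingHom F).map_det (bm a ρ σ b g)
    rw [eq_intCast] at this
    rw [this]
    congr 1
    ext i j
    rcases i with i | i <;> rcases j with j | j <;> simp [bm, hAdef]
  have hzero : ∀ g ∈ S, (((bm a ρ σ c g).det : ℤ) : F) = 0 → (bm a ρ σ c g).det = 0 := by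
    intro g _ h0
    by_contra hne
    refine hF _ (le_trans ?_ hfac1) hne h0
    have := Matrix.det_le (A := bm a ρ σ c g) (abv := AbsoluteValue.abs) (x := 1) (fun i j => by
      rcases i with i | i <;> rcases j with j | j
      · exact ha _ _
      · exact hc _
      · exact ha _ _
      · exact hc _)
    simpa using this
  constructor
  · rintro ⟨y, hy⟩ g hg
    apply hzero g hg
    rw [hcast]
    have hres : ∀ h, (a h g : F) - ∑ j, (a (σ j) g : F) * (A⁻¹.mulVec fun i => (a h (ρ i) : F)) j = 0 := by
      intro h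
      have h1 := hcast (a h) g
      have h2 : bm a ρ σ (a h) g = Matrix.of fun i j =>
          a (Sum.elim σ (fun _ : Unit => h) j) (Sum.elim ρ (fun _ : Unit => g) i) := by
        ext i j
        rcases i with i | i <;> rcases j with j | j <;> rfl
      have h3 : (bm a ρ σ (a h) g).det = 0 := by
        rw [h2]
        exact hb g hg h
      rw [h3, Int.cast_zero] at h1
      exact (mul_eq_zero.1 h1.symm).resolve_left hA
    have hcρ : (fun i => (c (ρ i) : F)) = -∑ h, y h • fun i => (a h (ρ i) : F) := by
      funext i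
      have := hy _ (hρ i)
      simp only [Pi.neg_apply, Finset.sum_apply, Pi.smul_apply, smul_eq_mul]
      have h1 : ∑ h, y h * (a h (ρ i) : F) = ∑ h, (a h (ρ i) : F) * y h :=
        Finset.sum_congr rfl fun h _ => mul_comm _ _
      rw [h1]
      linear_combination this
    have hcg : (c g : F) = -∑ h, y h * (a h g : F) := by
      have h1 : ∑ h, y h * (a h g : F) = ∑ h, (a h g : F) * y h :=
        Finset.sum_congr rfl fun h _ => mul_comm _ _
      rw [h1]
      linear_combination hy g hg
    have hmv : ∀ j, (A⁻¹.mulVec fun i => (c (ρ i) : F)) j =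
        -∑ h, y h * (A⁻¹.mulVec fun i => (a h (ρ i) : F)) j := by
      intro j
      rw [hcρ, Matrix.mulVec_neg, Pi.neg_apply, Matrix.mulVec_sum, Finset.sum_apply]
      congr 1
      exact Finset.sum_congr rfl fun h _ => by rw [Matrix.mulVec_smul, Pi.smul_apply, smul_eq_mul]
    have hfin : (c g : F) - ∑ j, (a (σ j) g : F) * (A⁻¹.mulVec fun i => (c (ρ i) : F)) j =
        -∑ h, y h * ((a h g : F) - ∑ j, (a (σ j) g : F) * (A⁻¹.mulVec fun i => (a h (ρ i) : F)) j) := by
      have h1 : ∑ j, (a (σ j) g : F) * (A⁻¹.mulVec fun i => (c (ρ i) : F)) j =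
          -∑ h, y h * ∑ j, (a (σ j) g : F) * (A⁻¹.mulVec fun i => (a h (ρ i) : F)) j := by
        simp only [hmv, mul_neg, Finset.sum_neg_distrib, Finset.mul_sum]
        rw [Finset.sum_comm]
        congr 1
        exact Finset.sum_congr rfl fun h _ => Finset.sum_congr rfl fun j _ => by ring
      rw [h1, hcg]
      simp only [mul_sub, Finset.sum_sub_distrib]
      ring
    rw [hfin]
    simp only [hres, mul_zero, Finset.sum_const_zero, neg_zero]
  · intro h
    refine ⟨fun k => ∑ j, if σ j = k then -(A⁻¹.mulVec fun i => (c (ρ i) : F)) j else 0, fun g hg => ?_⟩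
    have h1 := hcast c g
    rw [h g hg, Int.cast_zero] at h1
    have h2 := (mul_eq_zero.1 h1.symm).resolve_left hA
    have h3 : ∑ k, (a k g : F) * ∑ j, (if σ j = k then -(A⁻¹.mulVec fun i => (c (ρ i) : F)) j else 0) =
        -∑ j, (a (σ j) g : F) * (A⁻¹.mulVec fun i => (c (ρ i) : F)) j := by
      simp only [Finset.mul_sum]
      rw [Finset.sum_comm, ← Finset.sum_neg_distrib]
      refine Finset.sum_congr rfl fun j _ => ?_
      rw [Finset.sum_eq_single (σ j)]
      · rw [if_pos rfl, mul_neg]
      · intro k _ hk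
        rw [if_neg (Ne.symm hk), mul_zero]
      · intro h0
        exact absurd (mem_univ _) h0
    rw [h3]
    linear_combination h2

/-- Solvability does not depend on the field, if its characteristic is `0` or large. -/
private theorem solv_iff {ι κ : Type} [Fintype κ] (a : κ → ι → ℤ) (c : ι → ℤ) (S : Set ι)
    (ha : ∀ h g, |a h g| ≤ 1) (hc : ∀ g, |c g| ≤ 1) (F K : Type*) [Field F] [Field K]
    (hF : ∀ t : ℤ, |t| ≤ ((Fintype.card κ + 1)! : ℕ) → t ≠ 0 → (t : F) ≠ 0)
    (hK : ∀ t : ℤ, |t| ≤ ((Fintype.card κ + 1)! : ℕ) → t ≠ 0 → (t : K) ≠ 0) :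
    Solv a c S F ↔ Solv a c S K := by
  obtain ⟨r, ρ, σ, hr, hρ, hd, hb⟩ := max_minor a S
  exact (crit a c S ha hc ρ σ hr hρ hd hb F hF).trans (crit a c S ha hc ρ σ hr hρ hd hb K hK).symm

private theorem good_char {N : ℕ} {F : Type*} [Field F] (h : ringChar F = 0 ∨ N < ringChar F) (t : ℤ)
    (ht : |t| ≤ (N : ℤ)) (h0 : t ≠ 0) : (t : F) ≠ 0 := by
  intro h1
  have h2 : (ringChar F : ℤ) ∣ t := (CharP.intCast_eq_zero_iff F (ringChar F) t).1 h1
  rcases h with h | h
  · rw [h, Nat.cast_zero, zero_dvd_iff] at h2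
    exact h0 h2
  · have h3 := Int.le_of_dvd (abs_pos.2 h0) ((dvd_abs _ _).2 h2)
    have h4 : (N : ℤ) < ringChar F := by exact_mod_cast h
    linarith

/-! ### The size of the complex -/

private theorem split_le (a b c : Bool) : |Diagram.split a b c| ≤ 1 := by
  cases a <;> cases b <;> cases c <;> simp [Diagram.split]

private theorem merge_le (a b c : Bool) : |Diagram.merge a b c| ≤ 1 := by
  cases a <;> cases b <;> cases c <;> simp [Diagram.merge]

private theorem dcoef_le (D : Diagram) (h g : D.Gen) : |D.dcoef h g| ≤ 1 := by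
  classical
  unfold Diagram.dcoef
  by_cases hi : ∃ i, h.1 i = false ∧ g.1 = Function.update h.1 i true
  · obtain ⟨i, h1, h2⟩ := hi
    rw [Finset.sum_eq_single i]
    · split_ifs
      · rw [abs_mul, abs_pow, abs_neg, abs_one, one_pow, one_mul]
        exact split_le _ _ _
      · rw [abs_mul, abs_pow, abs_neg, abs_one, one_pow, one_mul]
        exact merge_le _ _ _
      · simp
    · intro j _ hj
      rw [if_neg]
      rintro ⟨h3, h4, -⟩
      rw [h2] at h4
      have h5 := congrFun h4 j
      rw [Function.update_self, Function.update_of_ne hj, h3] at h5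
      exact Bool.false_ne_true h5
    · intro h0
      exact absurd (mem_univ _) h0
  · rw [Finset.sum_eq_zero]
    · simp
    · intro j _
      rw [if_neg]
      rintro ⟨h3, h4, -⟩
      exact hi ⟨j, h3, h4⟩

private theorem can_le (D : Diagram) (g : D.Gen) : |D.can g| ≤ 1 := by
  classical
  unfold Diagram.can
  split_ifs
  · let _ : Fintype (D.Circle g.1) := Fintype.ofFinite _
    rw [finprod_eq_prod_of_fintype, Finset.abs_prod]
    refine Finset.prod_le_one (fun _ _ => abs_nonneg _) fun c _ => ?_
    split_ifs <;> simp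
  · simp

private theorem card_gen (D : Diagram) : Fintype.card D.Gen ≤ 2 ^ (D.n + D.m) := by
  let f : (Fin D.n → Bool) × (Fin D.m → Bool) → D.Gen := fun x => ⟨x.1, fun c => x.2 (Quot.out c)⟩
  have h1 : Function.Surjective f := by
    rintro ⟨v, l⟩
    refine ⟨(v, fun x => l (D.circ v x)), ?_⟩
    show (⟨v, fun c => l (D.circ v (Quot.out c))⟩ : D.Gen) = ⟨v, l⟩
    congr 1
    funext c
    exact congrArg l (Quot.out_eq c)
  have h2 := Fintype.card_le_of_surjective _ h1
  simpa [pow_add] using h2

private theorem indep (D : Diagram) (F K : Type*) [Field F] [Field K]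
    (hF : ringChar F = 0 ∨ (2 ^ (D.n + D.m) + 1)! < ringChar F)
    (hK : ringChar K = 0 ∨ (2 ^ (D.n + D.m) + 1)! < ringChar K) : D.rasmussen F = D.rasmussen K := by
  have hfac : ((Fintype.card D.Gen + 1)! : ℕ) ≤ (2 ^ (D.n + D.m) + 1)! :=
    Nat.factorial_le (Nat.succ_le_succ (card_gen D))
  have hfac' : (((Fintype.card D.Gen + 1)! : ℕ) : ℤ) ≤ (((2 ^ (D.n + D.m) + 1)! : ℕ) : ℤ) := by exact_mod_cast hfac
  have h1 : {j : ℤ | D.HasLevel F j} = {j : ℤ | D.HasLevel K j} := by
    ext j
    exact solv_iff D.dcoef D.can {g | D.qdeg g < j} (dcoef_le D) (can_le D) F K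
      (fun t ht h0 => good_char hF t (ht.trans hfac') h0) (fun t ht h0 => good_char hK t (ht.trans hfac') h0)
  unfold Diagram.rasmussen
  rw [h1]

/-- **Main theorem.** Let `D` be an oriented link diagram with `n` crossings and `m` arcs (`m = 2 n`, if there are no
free circles) and `B = (2 ^ (n + m) + 1)!`. Then `s(D; F) = s(D; K)` for all fields `F`, `K` of characteristic `0` or
larger than `B`. Hence, if `D` separates the characteristics `p` and `0`, then it also separates `p` and `q` for every
prime `q > B`. -/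
theorem result.{u, v} (D : Diagram) :
    (∀ (F : Type u) [Field F] (K : Type v) [Field K],
      (ringChar F = 0 ∨ (2 ^ (D.n + D.m) + 1)! < ringChar F) →
      (ringChar K = 0 ∨ (2 ^ (D.n + D.m) + 1)! < ringChar K) → D.rasmussen F = D.rasmussen K) ∧
    ∀ p : ℕ, Separates D p 0 → ∀ q : ℕ, q.Prime → (2 ^ (D.n + D.m) + 1)! < q → Separates D p q := by
  refine ⟨fun F _ K _ hF hK => indep D F K hF hK, ?_⟩
  rintro p ⟨F, iF, K, iK, hF, hK, hne⟩ q hq hB
  have : Fact q.Prime := ⟨hq⟩
  refine ⟨F, iF, ZMod q, inferInstance, hF, ZMod.ringChar_zmod_n q, ?_⟩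
  rw [indep D (ZMod q) K (Or.inr (by rw [ZMod.ringChar_zmod_n]; exact hB)) (Or.inl hK)]
  exact hne

end Pool.Agent.Results.MP_18f3b4_gt.LargeCharacteristic
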